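import Pool.Agent.helper84.NR.Spec

set_option autoImplicit false

namespace Pool.Agent.helper84.NR

open scoped Classical
open Finset

theorem VXS_on {V F : Type} {M : Cyc V F} {f : F} {e : Sym2 V} {v : V} (h : OnE M f e) (hv : v ∈ e) :
    OnV M f v := by
  obtain ⟨k, rfl⟩ := h
  rcases Sym2.mem_iff.1 hv with h | h
  · exact ⟨k, h.symm⟩
  · exact ⟨k + 1, h.symm⟩

theorem VXS (hDEG : DEG_stmt) (hPAR : PAR_stmt) : VXS_stmt := by
  intro V F _ _ M x y J hT q hx hy v hv e hve hcx hg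
  by_contra hcon
  obtain ⟨B0, hB0, hB0v⟩ := hv
  obtain ⟨g0, hg0e, hg0q⟩ := hg
  obtain ⟨hxe, A0, hA0x, hA0e⟩ := hcx
  have vx : v ≠ x := fun h => hT.ne B0 ⟨h ▸ hB0v, hT.jy B0 hB0⟩
  have hA0v : OnV M.toCyc A0 v := VXS_on hA0e hve
  have h5 := (hDEG V F M x).2.2.2.2 v vx ⟨A0, hA0x, hA0v⟩
  have hev := hPAR V F M {f | Quot.mk (lk M (inU M x y J)) f = q} v
  have hsub : (univ.filter (fun e : Sym2 V => v ∈ e ∧ (∃ f, OnE M.toCyc f e ∧
      f ∈ ({f | Quot.mk (lk M (inU M x y J)) f = q} : Set F)) ∧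
      ∃ g, OnE M.toCyc g e ∧ g ∉ ({f | Quot.mk (lk M (inU M x y J)) f = q} : Set F))) ⊆
      (univ.filter (fun e : Sym2 V => v ∈ e ∧ x ∉ e ∧
        ∃ A, OnV M.toCyc A x ∧ OnE M.toCyc A e)) := by
    intro h hh
    rw [mem_filter] at hh ⊢
    obtain ⟨_, hvh, ⟨f, hf, hfS⟩, g, hg, hgS⟩ := hh
    have hU : inU M x y J h := by
      by_contra hU
      exact hgS ((Quot.sound (⟨h, hU, hg, hf⟩ : lk M (inU M x y J) g f)).trans hfS)
    rcases hU with hc | ⟨B, hB, k, hk, hh⟩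
    · exact ⟨mem_univ _, hvh, hc.1, hc.2⟩
    · by_contra hnc
      apply hcon
      subst hh
      refine ⟨B, hB, k, hk, hvh, ?_, f, hf, hfS⟩
      intro hc
      exact hnc ⟨mem_univ _, hvh, hc.1, hc.2⟩
  have hmem : e ∈ (univ.filter (fun e : Sym2 V => v ∈ e ∧ (∃ f, OnE M.toCyc f e ∧
      f ∈ ({f | Quot.mk (lk M (inU M x y J)) f = q} : Set F)) ∧
      ∃ g, OnE M.toCyc g e ∧ g ∉ ({f | Quot.mk (lk M (inU M x y J)) f = q} : Set F))) := by
    rw [mem_filter]
    exact ⟨mem_univ _, hve, ⟨g0, hg0e, hg0q⟩, A0, hA0e, hx A0 hA0x⟩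
  have heq := Finset.eq_of_subset_of_card_le hsub (by
    rw [h5]
    obtain ⟨r, hr⟩ := hev
    have hpos := Finset.card_pos.2 ⟨e, hmem⟩
    omega)
  have hl := M.link v {f | Quot.mk (lk M (inU M x y J)) f = q ∨ OnV M.toCyc f x} (by
    intro h hvh f g hf hg hfS
    by_cases hxh : x ∈ h
    · exact Or.inr (VXS_on hg hxh)
    · by_cases hA : ∃ A, OnV M.toCyc A x ∧ OnE M.toCyc A h
      · have hm : h ∈ (univ.filter (fun e : Sym2 V => v ∈ e ∧ x ∉ e ∧
            ∃ A, OnV M.toCyc A x ∧ OnE M.toCyc A e)) := by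
          rw [mem_filter]
          exact ⟨mem_univ _, hvh, hxh, hA⟩
        rw [← heq, mem_filter] at hm
        obtain ⟨_, _, ⟨f1, hf1, hf1S⟩, _⟩ := hm
        obtain ⟨A, hAx, hAh⟩ := hA
        obtain ⟨g', hg'A, hg'h, hall⟩ := M.two h A hAh
        have hf1A : f1 ≠ A := fun hh => hx A hAx (hh ▸ hf1S)
        have hf1g : f1 = g' := (hall f1 hf1).resolve_left hf1A
        rcases hall g hg with hgA | hgg
        · right
          rw [hgA]
          exact hAx
        · left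
          rw [hgg, ← hf1g]
          exact hf1S
      · left
        have hfS' : Quot.mk (lk M (inU M x y J)) f = q := by
          rcases hfS with h1 | h1
          · exact h1
          · exact absurd ⟨f, h1, hf⟩ hA
        by_contra hgS
        have hm : h ∈ (univ.filter (fun e : Sym2 V => v ∈ e ∧ (∃ f, OnE M.toCyc f e ∧
            f ∈ ({f | Quot.mk (lk M (inU M x y J)) f = q} : Set F)) ∧
            ∃ g, OnE M.toCyc g e ∧ g ∉ ({f | Quot.mk (lk M (inU M x y J)) f = q} : Set F))) := by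
          rw [mem_filter]
          exact ⟨mem_univ _, hvh, ⟨f, hf, hfS'⟩, g, hg, hgS⟩
        have hm2 := hsub hm
        rw [mem_filter] at hm2
        exact hA hm2.2.2.2)
  rcases hl g0 B0 (VXS_on hg0e hve) hB0v (Or.inl hg0q) with h1 | h1
  · exact hy B0 (hT.jy B0 hB0) h1
  · exact hT.ne B0 ⟨h1, hT.jy B0 hB0⟩

end Pool.Agent.helper84.NR
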